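import Pool.Agent.Q27.GS.SL

/-!
# Baum–Connes with commutative coefficients: one metrizable compactification decides

Let `G` be a non-compact second countable locally compact Hausdorff group.  We construct a compact
metrizable `G`-space `K` which contains `G`, with the left translations, as an open dense subspace,
such that every property of (second countable, locally compact, Hausdorff) `G`-spaces with the
permanence properties `IsBC` holds for all `G`-spaces as soon as it holds for `K`.  The bijectivity
of the Baum–Connes assembly map with coefficients in `C_0(A)` is such a property when `G` is a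
connected Lie group.  The compactifications `K_n` of the groups `SL_n(ℝ)`, for infinitely many `n`,
decide in the same way for all closed subgroups of all `SL_n(ℝ)`, in particular for all connected
linear Lie groups.

The construction: there is a compact metrizable `G`-space over the Cantor set whose fibres are all
compact metrizable `G`-spaces; its (pointed) suspension is the remainder of a compactification of
`G`, by means of slowly varying functions on `G`.
-/

set_option autoImplicit false

namespace Pool.Agent.Results.MP_aa9b81_an.OneCompactification

open Topology Set Filter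
open Pool.Agent.Q27.GS

/-- `K` is a compactification of `G`: it is compact and contains `G` (with the left translations)
as an open dense subspace. -/
def IsCompactification {G : Type} [Group G] [TopologicalSpace G] (K : GSp G) : Prop :=
  CompactSpace K.X ∧ ∃ orb : G → K.X, IsOpenEmbedding orb ∧ DenseRange orb ∧
    ∀ h g : G, orb (h * g) = h • orb g

/-- `B` is the `G`-space induced by the `H`-space `A` along `φ : H → G`: it has a continuous
equivariant map to `G / φ(H)`, whose fibre over the coset of `1` is `A`. -/
def IsInduced {H G : Type} [Group H] [TopologicalSpace H] [Group G] [TopologicalSpace G]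
    (φ : H →* G) (A : GSp H) (B : GSp G) : Prop :=
  ∃ (p : B.X → G ⧸ φ.range) (i : A.X → B.X), Continuous p ∧
    (∀ (g : G) (b : B.X), p (g • b) = g • p b) ∧ IsEmbedding i ∧
    (∀ (h : H) (a : A.X), i (h • a) = φ h • i a) ∧ range i = {b | p b = ((1 : G) : G ⧸ φ.range)}

/-- Properties `BC` of pairs of a group and a space: the permanence properties `IsBC` for the
groups `SL_n(ℝ)`, and for each closed embedding `H → SL_n(ℝ)` and each `H`-space `A` the induced
`SL_n(ℝ)`-space exists and has the property if and only if `A` has it. -/
structure IsFamily (BC : ∀ (G : Type) [Group G] [TopologicalSpace G], GSp G → Prop) : Prop where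
  sl : ∀ n, IsBC (BC (SLR n))
  ind : ∀ (n : ℕ) (H : Type) [Group H] [TopologicalSpace H] (φ : H →* SLR n),
    IsClosedEmbedding φ → ∀ A : GSp H, ∃ B : GSp (SLR n), IsInduced φ A B ∧
      (BC (SLR n) B ↔ BC H A)

theorem result :
    (∀ (G : Type) [Group G] [TopologicalSpace G] [IsTopologicalGroup G] [LocallyCompactSpace G]
      [T2Space G] [SecondCountableTopology G] [NoncompactSpace G],
      ∃ K : GSp G, IsCompactification K ∧
        ∀ BC : GSp G → Prop, IsBC BC → (BC K ↔ ∀ A : GSp G, BC A)) ∧
    ∃ K : ∀ n, GSp (SLR n), (∀ n, IsCompactification (K n)) ∧
      ∀ BC : ∀ (G : Type) [Group G] [TopologicalSpace G], GSp G → Prop, IsFamily BC →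
        ((∃ᶠ n in atTop, BC (SLR n) (K n)) ↔
          ∀ (n : ℕ) (H : Type) [Group H] [TopologicalSpace H] (φ : H →* SLR n),
            IsClosedEmbedding φ → ∀ A : GSp H, BC H A) := by
  refine ⟨fun G => ?_, ?_⟩
  · intros
    obtain ⟨K, hK, ho, h⟩ := exists_decisive G
    exact ⟨K, ⟨hK, ho⟩, h⟩
  · have hex := fun n => exists_decisive (SLR n)
    choose K hK ho h using hex
    refine ⟨K, fun n => ⟨hK n, ho n⟩, fun BC hBC => ⟨fun hf => ?_, fun hall => ?_⟩⟩
    · intro n H _ _ φ hφ A
      obtain ⟨m, hm, hBm⟩ := (frequently_atTop.mp hf) n
      obtain ⟨k, rfl⟩ := Nat.exists_eq_add_of_le hm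
      have hall := (h (n + k) (BC (SLR (n + k))) (hBC.sl (n + k))).mp hBm
      obtain ⟨B, -, hB⟩ := hBC.ind (n + k) H ((blk n k).comp φ)
        ((isClosedEmbedding_blk n k).comp hφ) A
      exact hB.mp (hall B)
    · exact Filter.Frequently.of_forall fun n => hall n (SLR n) (MonoidHom.id _) .id (K n)

end Pool.Agent.Results.MP_aa9b81_an.OneCompactification
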