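import Pool.Agent.Q27.GT.Fin

/-!
# Baum–Connes with commutative coefficients: the points with parabolic stabilizers

Let `P_1, …, P_k` be a flag family of subgroups of `G`, for example representatives of the
conjugacy classes of closed subgroups with parabolic Lie algebra of a connected semisimple Lie
group with finite centre.  The points of a `G`-space `X` whose stabilizers are conjugate to one of
the `P_i` form a closed set, the Baum–Connes conjecture holds with coefficients in the functions
on it, and it holds for `X` if and only if it holds for the complement of this set.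
-/

set_option autoImplicit false

namespace Pool.Agent.Results.MP_aa9b81_an.ParabolicStabilizers

open Topology Set Filter
open Pool.Agent.Q27.GS Pool.Agent.Q27.GT

/-- Closed cocompact subgroups `P_i` with finite `N(P_i) / P_i`, no conjugate of `P_i` is properly
contained in `P_i`, a conjugate of `P_i` is contained in `P_j` only for `j ≤ i`, and every closed
subgroup which contains `P_i` is conjugate to a member of the family. -/
structure IsFlagFamily {G : Type} [Group G] [TopologicalSpace G] {k : ℕ}
    (P : Fin k → Subgroup G) : Prop where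
  closed : ∀ i, IsClosed (P i : Set G)
  cocompact : ∀ i, CompactSpace (G ⧸ P i)
  strict : ∀ i (g : G), (∀ p ∈ P i, g * p * g⁻¹ ∈ P i) → ∀ p ∈ P i, g⁻¹ * p * g ∈ P i
  finite : ∀ i, ∃ R : Finset G, ∀ g : G, (∀ p ∈ P i, g * p * g⁻¹ ∈ P i) →
    ∃ r ∈ R, r⁻¹ * g ∈ P i
  order : ∀ i j (g : G), (∀ p ∈ P i, g * p * g⁻¹ ∈ P j) → j ≤ i
  upward : ∀ i (H : Subgroup G), IsClosed (H : Set G) → P i ≤ H →
    ∃ (j : Fin k) (g : G), ∀ h : G, h ∈ P j ↔ g * h * g⁻¹ ∈ H

/-- The points of `X` whose stabilizers are conjugate to a member of the family. -/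
def Flags {G : Type} [Group G] [TopologicalSpace G] {k : ℕ} (P : Fin k → Subgroup G)
    (X : GSp G) : Set X.X :=
  {x | ∃ i, HasStabilizer (P i) X x}

theorem result (G : Type) [Group G] [TopologicalSpace G] [IsTopologicalGroup G]
    [LocallyCompactSpace G] [T2Space G] [SecondCountableTopology G] (k : ℕ)
    (P : Fin k → Subgroup G) (hP : IsFlagFamily P) (BC : GSp G → Prop) (hBC : IsBC BC)
    (hun : Unions BC)
    (hb : ∀ i (Y : Type) [TopologicalSpace Y] [LocallyCompactSpace Y] [T2Space Y]
      [SecondCountableTopology Y], BC (coset (P i) (hP.closed i) Y))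
    (X : GSp G) :
    IsClosed (Flags P X) ∧
    (∀ (Z : GSp G) (i : Z.X → X.X), IsClosedEmbedding i → Equi Z X i → range i = Flags P X →
      BC Z) ∧
    ∀ (W : GSp G) (j : W.X → X.X), IsOpenEmbedding j → Equi W X j → range j = (Flags P X)ᶜ →
      (BC X ↔ BC W) := by
  classical
  have hcpt := hP.cocompact
  have hFl : Flags P X = ⋃ i, FixG (P i) X := by
    ext x
    simp only [mem_iUnion]
    constructor
    · rintro ⟨i, g, hg⟩
      exact ⟨i, g, fun h hh => (hg h).mpr hh⟩
    · rintro ⟨i, g, hg⟩
      let H : Subgroup G := MulAction.stabilizer G (g⁻¹ • x)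
      have hH : IsClosed (H : Set G) := by
        have : (H : Set G) = {h : G | h • (g⁻¹ • x) = g⁻¹ • x} := by
          ext h
          exact MulAction.mem_stabilizer_iff
        rw [this]
        exact isClosed_eq (continuous_id.smul continuous_const) continuous_const
      obtain ⟨j, u, hu⟩ := hP.upward i H hH (fun p hp => MulAction.mem_stabilizer_iff.mpr (hg p hp))
      refine ⟨j, g * u, fun h => ?_⟩
      rw [hu h, MulAction.mem_stabilizer_iff]
      have e1 : (g * u)⁻¹ • x = u⁻¹ • g⁻¹ • x := by rw [mul_inv_rev, mul_smul]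
      rw [e1, mul_smul, mul_smul]
      exact eq_inv_smul_iff
  have hcl : IsClosed (Flags P X) := by
    rw [hFl]
    exact isClosed_iUnion_of_finite fun i => FixG_closed (P i) X
  have hall : ∀ (Z : GSp G) (i : Z.X → X.X), IsClosedEmbedding i → Equi Z X i →
      range i = Flags P X → BC Z := by
    intro Z i hi hie hir
    refine family_fin hBC hun P hP.closed hP.cocompact hP.strict hP.finite hP.order hb Z
      fun z => ?_
    have hz : i z ∈ Flags P X := by rw [← hir]; exact mem_range_self z
    obtain ⟨m, g, hg⟩ := hz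
    refine ⟨m, g, fun h => ?_⟩
    rw [← hg h, ← hie, ← hie]
    exact ⟨fun e => by rw [e], fun e => hi.injective e⟩
  refine ⟨hcl, hall, ?_⟩
  intro W j hj hje hjr
  have hFi : ∀ (g : G) (x : X.X), x ∈ Flags P X → g • x ∈ Flags P X := by
    intro g x hx
    rw [hFl] at hx ⊢
    obtain ⟨i, hi⟩ := mem_iUnion.mp hx
    exact mem_iUnion.mpr ⟨i, FixG_inv (P i) X g x hi⟩
  let i : (X.sub (Flags P X) hcl hFi).X → X.X := fun x => x.1
  have hir : range i = Flags P X := Subtype.range_val
  have hi : IsClosedEmbedding i := ⟨.subtypeVal, by rw [hir]; exact hcl⟩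
  have hZ := hall _ i hi (fun _ _ => rfl) hir
  have hex := hBC.excision _ X W i j hi hj (fun _ _ => rfl) hje (by rw [hjr, hir])
  exact ⟨hex.1 hZ, hex.2.1 hZ⟩

end Pool.Agent.Results.MP_aa9b81_an.ParabolicStabilizers
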